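import Pool.Agent.OMF.Stmts

set_option autoImplicit false

namespace Pool.Agent.OMF.H25

open Finset Pool.Agent.GTO

lemma dtLin (x v B : V) (a1 b1 c1 a2 b2 c2 a3 b3 c3 : ℝ) :
    dt (a1 • x + b1 • v + c1 • B) (a2 • x + b2 • v + c2 • B) (a3 • x + b3 • v + c3 • B) =
      (a1 * (b2 * c3 - b3 * c2) - b1 * (a2 * c3 - a3 * c2) + c1 * (a2 * b3 - a3 * b2)) *
        dt x v B := by
  simp only [dt, Pi.add_apply, Pi.smul_apply, smul_eq_mul]
  ring

lemma cramerB (x p b q : V) : dt x p b • q = dt q p b • x + dt x q b • p + dt x p q • b := by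
  funext i
  fin_cases i <;>
    simp only [dt, Pi.add_apply, Pi.smul_apply, smul_eq_mul, Fin.zero_eta, Fin.mk_one,
      Fin.reduceFinMk] <;> ring

lemma coord (x p b q : V) (h : dt x p b ≠ 0) : ∃ α β γ : ℝ, q = α • x + β • p + γ • b := by
  refine ⟨(dt x p b)⁻¹ * dt q p b, (dt x p b)⁻¹ * dt x q b, (dt x p b)⁻¹ * dt x p q, ?_⟩
  have h1 := cramerB x p b q
  have h2 : q = (dt x p b)⁻¹ • (dt x p b • q) := by
    rw [smul_smul, inv_mul_cancel₀ h, one_smul]
  calc q = (dt x p b)⁻¹ • (dt x p b • q) := h2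
    _ = (dt x p b)⁻¹ • (dt q p b • x + dt x q b • p + dt x p q • b) := by rw [← h1]
    _ = _ := by rw [smul_add, smul_add, smul_smul, smul_smul, smul_smul]

lemma bacCab (T g g' : V) : cr T (cr g g') = ip T g' • g - ip T g • g' := by
  funext i
  fin_cases i <;>
    simp only [ip, cr, Pi.sub_apply, Pi.smul_apply, smul_eq_mul, Matrix.cons_val_zero,
      Matrix.cons_val_one, Matrix.cons_val, Fin.zero_eta, Fin.mk_one,
      Fin.reduceFinMk] <;> ring

lemma ipLin (T x v B : V) (s a b : ℝ) :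
    ip T (s • (v + a • B + b • x)) = s * (ip T v + a * ip T B + b * ip T x) := by
  simp only [ip, Pi.add_apply, Pi.smul_apply, smul_eq_mul]
  ring

lemma crPar (v B x : V) (s t h k : ℝ) (hc : cr (s • (v + h • B + (k * h ^ 2) • x))
    (t • (v + h • B + (k * h ^ 2) • x)) ≠ 0) : False := by
  apply hc
  funext i
  fin_cases i <;>
    simp only [cr, Pi.add_apply, Pi.smul_apply, smul_eq_mul, Matrix.cons_val_zero,
      Matrix.cons_val_one, Matrix.cons_val, Fin.zero_eta, Fin.mk_one,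
      Fin.reduceFinMk, Pi.zero_apply] <;> ring

lemma shape (v B x : V) (s h k : ℝ) : s • (v + h • B + (k * h ^ 2) • x) =
    (s * (k * h ^ 2)) • x + s • v + (s * h) • B := by
  funext i
  simp only [Pi.add_apply, Pi.smul_apply, smul_eq_mul]
  ring

/-- the intersection point of `x p` and `g p'` -/
lemma meet (x v0 B w : V) (κ s1 s2 s3 i m j : ℝ) (h1 : s1 ≠ 0) (h2 : s2 ≠ 0) (h3 : s3 ≠ 0)
    (hmj : m ≠ j) (hD : dt x v0 B ≠ 0)
    (e1 : dt x (s1 • (v0 + i • B + (κ * i ^ 2) • x)) w = 0)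
    (e2 : dt (s2 • (v0 + m • B + (κ * m ^ 2) • x)) (s3 • (v0 + j • B + (κ * j ^ 2) • x)) w = 0) :
    ∃ a : ℝ, w = (a * (κ * ((m + j) * i - m * j))) • x + a • v0 + (a * i) • B := by
  obtain ⟨α, β, γ, hw⟩ := coord x v0 B w hD
  have hx : x = (1 : ℝ) • x + (0 : ℝ) • v0 + (0 : ℝ) • B := by simp
  rw [shape, hw] at e1 e2
  rw [shape] at e2
  have e1' : dt ((1 : ℝ) • x + (0 : ℝ) • v0 + (0 : ℝ) • B)
      ((s1 * (κ * i ^ 2)) • x + s1 • v0 + (s1 * i) • B) (α • x + β • v0 + γ • B) = 0 := by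
    rw [← hx]; exact e1
  rw [dtLin] at e1' e2
  have f1 := (mul_eq_zero.1 e1').resolve_right hD
  have f2 := (mul_eq_zero.1 e2).resolve_right hD
  have g1 : γ = i * β := by
    have : s1 * (γ - i * β) = 0 := by linear_combination f1
    have := (mul_eq_zero.1 this).resolve_left h1
    linarith
  subst g1
  have g2 : α = β * (κ * ((m + j) * i - m * j)) := by
    have h4 : s2 * s3 * (j - m) * (α - β * (κ * ((m + j) * i - m * j))) = 0 := by
      linear_combination f2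
    have h5 : s2 * s3 * (j - m) ≠ 0 :=
      mul_ne_zero (mul_ne_zero h2 h3) (sub_ne_zero.2 (Ne.symm hmj))
    have := (mul_eq_zero.1 h4).resolve_left h5
    linarith
  refine ⟨β, ?_⟩
  rw [hw, ← g2, mul_comm β i]

theorem psc (hpar : ParStmt) : PscStmt := by
  intro e x g g' p p' w w' hN hx hg hg' hp hp' xg xg' xp xp' gg' gp gp' g'p g'p' pp' d1 d2 d3 d4
  obtain ⟨v0, B, κ, hκ, hD, hβ, hTB, hTx, hP⟩ := hpar e x g hN hx hg xg
  obtain ⟨sg, m, hsg, eg⟩ := hP g hg xg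
  obtain ⟨sg', n, hsg', eg'⟩ := hP g' hg' xg'
  obtain ⟨sp, i, hsp, ep⟩ := hP p hp xp
  obtain ⟨sp', j, hsp', ep'⟩ := hP p' hp' xp'
  have hmj : m ≠ j := by
    rintro rfl
    rw [eg, ep'] at gp'
    exact crPar _ _ _ _ _ _ _ gp'
  have hni : n ≠ i := by
    rintro rfl
    rw [eg', ep] at g'p
    exact crPar _ _ _ _ _ _ _ g'p
  rw [ep] at d1
  rw [eg, ep'] at d2
  rw [ep'] at d3
  rw [eg', ep] at d4
  obtain ⟨a, hw⟩ := meet x v0 B w κ sp sg sp' i m j hsp hsg hsp' hmj hD d1 d2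
  obtain ⟨b, hw'⟩ := meet x v0 B w' κ sp' sg' sp j n i hsp' hsg' hsp hni hD d3 d4
  have hq : cr (tg e x) (cr g g') =
      (sg' * ip (tg e x) v0 * (sg * (κ * m ^ 2)) - sg * ip (tg e x) v0 * (sg' * (κ * n ^ 2))) • x +
      (0 : ℝ) • v0 + (sg' * ip (tg e x) v0 * (sg * m) - sg * ip (tg e x) v0 * (sg' * n)) • B := by
    rw [bacCab, eg, eg', ipLin, ipLin, hTB, hTx]
    funext k
    simp only [Pi.add_apply, Pi.sub_apply, Pi.smul_apply, smul_eq_mul]
    ring
  rw [hw, hw', hq, dtLin]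
  ring

end Pool.Agent.OMF.H25
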